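import Pool.Agent.Lib_helper61.TB.Det

/-!
# Monomials in characters: from one place to another
-/

set_option autoImplicit false

namespace Pool.Agent.TEI

open NumberField Topology Polynomial
open Pool.Agent.TT (Qbar cyc)
open Pool.Agent.TB

/-- **Transfer of relations.** If the values of `f i` and `g i` at the inverses of the Frobenius
elements are images of the same nonzero element, then each multiplicative relation between the `g i`
on an open subgroup holds between the `f i`. -/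
theorem ind_transfer {K : Type} [Field K] [NumberField K] [Algebra K Qbar] {E : Type} [Field E]
    {A : Type} [NormedField A] {L : Type} [Field L] (ip : E →+* A) (il : E →+* L)
    {ι : Type} [Fintype ι] (f : ι → (Qbar ≃ₐ[K] Qbar) → A) (g : ι → (Qbar ≃ₐ[K] Qbar) → L)
    (hf : ∀ i, Continuous (f i)) (hf0 : ∀ i σ, f i σ ≠ 0)
    (hfg : ∃ B : Finset ℕ, ∀ q : ℕ, q.Prime → q ∉ B → ∀ 𝔓 : Ideal (𝓞 Qbar), 𝔓.IsPrime →
      (q : 𝓞 Qbar) ∈ 𝔓 → ∀ σ : Qbar ≃ₐ[K] Qbar,
        (∀ x y : 𝓞 Qbar, (y : Qbar) = σ x → y - x ^ q ∈ 𝔓) →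
          ∀ i, ∃ e : E, f i σ⁻¹ = ip e ∧ g i σ⁻¹ = il e)
    (H : Subgroup (Qbar ≃ₐ[K] Qbar)) (hH : IsOpen (H : Set (Qbar ≃ₐ[K] Qbar))) (n : ι → ℤ)
    (hn : ∀ h ∈ H, ∏ i, g i h ^ n i = 1) : ∀ h ∈ H, ∏ i, f i h ^ n i = 1 := by
  intro h hh
  obtain ⟨B, hB⟩ := hfg
  by_contra hcon
  have hcont : Continuous (fun σ : Qbar ≃ₐ[K] Qbar => ∏ i, f i σ⁻¹ ^ n i) := by
    apply continuous_finsetProd
    intro i _
    exact ((hf i).comp continuous_inv).zpow₀ (n i) fun σ => Or.inl (hf0 i _)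
  have hU : {σ : Qbar ≃ₐ[K] Qbar | σ ∈ H ∧ ∏ i, f i σ⁻¹ ^ n i ≠ 1} ∈ 𝓝 h⁻¹ := by
    apply Filter.inter_mem
    · exact hH.mem_nhds (H.inv_mem hh)
    · apply (isOpen_ne.preimage hcont).mem_nhds
      rw [Set.mem_preimage, inv_inv]
      exact hcon
  obtain ⟨q, hq, hqB, Q, hQ, hqQ, σ, ⟨hσH, hσ0⟩, hσ⟩ := fb_dense h⁻¹ _ hU B
  apply hσ0
  choose e he1 he2 using hB q hq hqB Q hQ hqQ σ hσ
  have h1 := hn σ⁻¹ (H.inv_mem hσH)
  have h2 : il (∏ i, e i ^ n i) = 1 := by
    rw [map_prod, ← h1]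
    exact Finset.prod_congr rfl fun i _ => by rw [map_zpow₀, he2 i]
  have h3 : ∏ i, e i ^ n i = 1 := il.injective (h2.trans (map_one il).symm)
  have h4 : ∏ i, f i σ⁻¹ ^ n i = ip (∏ i, e i ^ n i) := by
    rw [map_prod]
    exact Finset.prod_congr rfl fun i _ => by rw [map_zpow₀, he1 i]
  rw [h4, h3, map_one]

/-- The determinant from the characteristic polynomial. -/
theorem det_eq_coeff {k : Type} [CommRing k] {n : Type} [Fintype n] [DecidableEq n]
    (M : Matrix n n k) : M.det = (-1) ^ Fintype.card n * M.charpoly.coeff 0 :=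
  Matrix.det_eq_sign_charpoly_coeff M

/-- Values of determinants at Frobenius elements. -/
theorem det_values {E : Type} [Field E] {A L : Type} [Field A] [Field L]
    (ip : E →+* A) (il : E →+* L) {d : ℕ} (M : Matrix (Fin d) (Fin d) A)
    (N : Matrix (Fin d) (Fin d) L)
    (h : ∃ f : E[X], M.charpoly = f.map ip ∧ N.charpoly = f.map il) :
    ∃ e : E, M.det = ip e ∧ N.det = il e := by
  obtain ⟨f, h1, h2⟩ := h
  refine ⟨(-1) ^ d * f.coeff 0, ?_, ?_⟩
  · rw [det_eq_coeff, h1, Polynomial.coeff_map, Fintype.card_fin, map_mul, map_pow, map_neg,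
      map_one]
  · rw [det_eq_coeff, h2, Polynomial.coeff_map, Fintype.card_fin, map_mul, map_pow, map_neg,
      map_one]

/-- **(Ind) at `ℓ` from (Ind) at `p`**, for determinants and the cyclotomic character, both with
values in `ℂ_[p]`, `ℂ_[ℓ]`. -/
theorem ind_det {K : Type} [Field K] [NumberField K] [Algebra K Qbar] {E : Type} [Field E]
    {p ℓ : ℕ} [Fact p.Prime] [Fact ℓ.Prime] (ip : E →+* ℂ_[p]) (il : E →+* ℂ_[ℓ])
    {ι : Type} [Fintype ι] (d : ι → ℕ)
    (ρ : (i : ι) → (Qbar ≃ₐ[K] Qbar) →* Matrix (Fin (d i)) (Fin (d i)) ℂ_[p])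
    (hρ : ∀ i, Continuous (ρ i))
    (π : (i : ι) → (Qbar ≃ₐ[K] Qbar) →* Matrix (Fin (d i)) (Fin (d i)) ℂ_[ℓ])
    (hfg : ∀ i, ∃ B : Finset ℕ, ∀ q : ℕ, q.Prime → q ∉ B → ∀ 𝔓 : Ideal (𝓞 Qbar), 𝔓.IsPrime →
      (q : 𝓞 Qbar) ∈ 𝔓 → ∀ σ : Qbar ≃ₐ[K] Qbar,
        (∀ x y : 𝓞 Qbar, (y : Qbar) = σ x → y - x ^ q ∈ 𝔓) →
          ∃ f : E[X], (ρ i σ⁻¹).charpoly = f.map ip ∧ (π i σ⁻¹).charpoly = f.map il)
    (H : Subgroup (Qbar ≃ₐ[K] Qbar)) (hH : IsOpen (H : Set (Qbar ≃ₐ[K] Qbar))) (n : ι → ℤ) (c : ℤ)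
    (hn : ∀ h ∈ H, (∏ i, (π i h).det ^ n i) * cycC ℓ h ^ c = 1) :
    ∀ h ∈ H, (∏ i, (ρ i h).det ^ n i) * cycC p h ^ c = 1 := by
  classical
  choose B hB using hfg
  have hmain := ind_transfer (K := K) ip il (ι := Option ι)
    (fun i => match i with
      | none => cycC p
      | some i => fun σ => (ρ i σ).det)
    (fun i => match i with
      | none => cycC ℓ
      | some i => fun σ => (π i σ).det)
    (by
      rintro (_ | i)
      · exact cycC_continuous
      · exact (hρ i).matrix_det)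
    (by
      rintro (_ | i) σ
      · exact cycC_ne_zero σ
      · change (ρ i σ).det ≠ 0
        intro h0
        have h1 : (ρ i σ * ρ i σ⁻¹).det = 1 := by
          rw [← map_mul, mul_inv_cancel, map_one, Matrix.det_one]
        rw [Matrix.det_mul, h0, zero_mul] at h1
        exact zero_ne_one h1)
    (by
      refine ⟨(Finset.univ.biUnion B) ∪ {p, ℓ}, ?_⟩
      intro q hq hqB Q hQ hqQ σ hσ
      rw [Finset.mem_union, not_or, Finset.mem_insert, Finset.mem_singleton, not_or] at hqB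
      obtain ⟨hqB, hqp, hql⟩ := hqB
      rintro (_ | i)
      · refine ⟨(q : E)⁻¹, ?_, ?_⟩
        · have h1 := cycC_mul (p := p) σ σ⁻¹
          rw [mul_inv_cancel, cycC_one, cycC_frob hq (Ne.symm hqp) hQ hqQ hσ] at h1
          change cycC p σ⁻¹ = _
          rw [map_inv₀, map_natCast]
          exact eq_inv_of_mul_eq_one_right h1.symm
        · have h1 := cycC_mul (p := ℓ) σ σ⁻¹
          rw [mul_inv_cancel, cycC_one, cycC_frob hq (Ne.symm hql) hQ hqQ hσ] at h1
          change cycC ℓ σ⁻¹ = _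
          rw [map_inv₀, map_natCast]
          exact eq_inv_of_mul_eq_one_right h1.symm
      · apply det_values
        apply hB i q hq _ Q hQ hqQ σ hσ
        intro hcon
        exact hqB (Finset.mem_biUnion.mpr ⟨i, Finset.mem_univ i, hcon⟩))
    H hH (fun i => match i with
      | none => c
      | some i => n i)
    (by
      intro h hh
      rw [Fintype.prod_option, mul_comm]
      exact hn h hh)
  intro h hh
  have h1 := hmain h hh
  rw [Fintype.prod_option, mul_comm] at h1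
  exact h1

end Pool.Agent.TEI
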